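import Pool.Agent.H7.FTM.Com

/-!
# MP_fd35e1_ag: row MRE of ftm_modules, the relation for classes of type a, even dimension

Model: Pool/Agent/H12/EV/OER.lean.
-/

set_option autoImplicit false
set_option linter.unusedSectionVars false

open Matrix Pool.Agent.H64.CC Pool.Agent.H2.NL Pool.Agent.H2.KM Pool.Agent.H64.EV Pool.Agent.H64.FTM
open Pool.Agent.H64.EK hiding kap

namespace Pool.Agent.H7.FTM

section

variable {K : Type} [Field K] {I : Type} [Fintype I] [DecidableEq I] (F : OForm K I)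

omit [DecidableEq I] [Fintype I] in
private theorem M4_add (t t' : List I → K) : F.M4 (t + t') = F.M4 t + F.M4 t' := by
  ext x y
  simp only [OForm.M4, Matrix.of_apply, Matrix.add_apply, Pi.add_apply, add_mul]

omit [DecidableEq I] [Fintype I] in
private theorem M4_smul [CharZero K] (q : ℚ) (t : List I → K) :
    F.M4 (q • t) = (q : K) • F.M4 t := by
  ext x y
  simp only [OForm.M4, Matrix.of_apply, Matrix.smul_apply, Pi.smul_apply, smul_eq_mul]
  rw [Rat.smul_def, mul_assoc]

private theorem mul_Sx (G : Matrix (I × I) (I × I) K) (x : I × I) (a b : I) :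
    (G * F.Sx) x (a, b) = G x (b, a) * ks K (F.o a) (F.o b) := by
  rw [Matrix.mul_apply, Finset.sum_eq_single (b, a)]
  · unfold OForm.Sx
    rw [Matrix.of_apply, if_pos ⟨rfl, rfl⟩, ks_comm]
  · intro z _ hz
    unfold OForm.Sx
    rw [Matrix.of_apply, if_neg, mul_zero]
    rintro ⟨h3, h4⟩
    exact hz (Prod.ext h3 h4)
  · intro h
    exact absurd (Finset.mem_univ _) h

private theorem Sx_mul (G : Matrix (I × I) (I × I) K) (y : I × I) (a b : I) :
    (F.Sx * G) (a, b) y = G (b, a) y * ks K (F.o a) (F.o b) := by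
  rw [Matrix.mul_apply, Finset.sum_eq_single (b, a)]
  · unfold OForm.Sx
    rw [Matrix.of_apply, if_pos ⟨rfl, rfl⟩, mul_comm]
  · intro z _ hz
    unfold OForm.Sx
    rw [Matrix.of_apply, if_neg, zero_mul]
    rintro ⟨h3, h4⟩
    exact hz (Prod.ext h4.symm h3.symm)
  · intro h
    exact absurd (Finset.mem_univ _) h

omit [DecidableEq I] in
private theorem str2_sub (G G' : Matrix (I × I) (I × I) K) :
    F.str2 (G - G') = F.str2 G - F.str2 G' := by
  unfold OForm.str2
  rw [← Finset.sum_sub_distrib]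
  exact Finset.sum_congr rfl fun x _ => by rw [Matrix.sub_apply]; ring

private theorem str2_cyc (G : Matrix (I × I) (I × I) K) :
    F.str2 (F.Sx * G) = F.str2 (G * F.Sx) := by
  unfold OForm.str2
  rw [← (Equiv.prodComm I I).sum_comp]
  refine Finset.sum_congr rfl fun x _ => ?_
  obtain ⟨a, b⟩ := x
  show sg K (F.o b) * sg K (F.o a) * (F.Sx * G) (b, a) (b, a) =
    sg K (F.o a) * sg K (F.o b) * (G * F.Sx) (a, b) (a, b)
  rw [Sx_mul, mul_Sx, ks_comm]
  ring

/-- the sums in the invariance -/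
private theorem sum_T1 (p q a : I) (f : I → K) :
    ∑ b, F.T p q a b * f b = (if a = p then F.c q * f (F.st q) else 0) -
      (if a = q then F.c p * f (F.st p) else 0) := by
  have h : ∀ q : I, ∑ b, F.η q b * f b = F.c q * f (F.st q) := by
    intro q
    rw [Finset.sum_eq_single (F.st q)]
    · rw [OForm.η, Matrix.of_apply, if_pos rfl]
    · intro b _ hb
      rw [OForm.η, Matrix.of_apply, if_neg hb, zero_mul]
    · intro h
      exact absurd (Finset.mem_univ _) h
  have h1 : ∀ b, F.T p q a b * f b = (if a = p then F.η q b * f b else 0) -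
      (if a = q then F.η p b * f b else 0) := by
    intro b
    rw [OForm.T, Matrix.of_apply]
    by_cases h2 : a = p <;> by_cases h3 : a = q <;> simp [h2, h3, sub_mul]
  rw [Finset.sum_congr rfl fun b _ => h1 b, Finset.sum_sub_distrib]
  congr 1
  · by_cases h2 : a = p
    · simp only [if_pos h2]; exact h q
    · simp only [if_neg h2]; exact Finset.sum_const_zero
  · by_cases h2 : a = q
    · simp only [if_pos h2]; exact h p
    · simp only [if_neg h2]; exact Finset.sum_const_zero

end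

theorem pf_MRE (hODE : T_ODE) (hOMV : T_OMV) (hOMC : T_OMC) (hONN : T_ONN) (hOHT : T_OHT)
    (hOKE : T_OKE) (hOMU : T_OMU) (hOUN : T_OUN) : T_MRE := by
  intro K _ _ V P E _ _ _ _ _ _ F G A hM hS hder k n x y hk hn hnk hx hy htx hty
  have hm1 := mem1 hOMC F G A hM k n x y hk hn hx hy htx hty
  have hm2 := mem2 hOMV hOMC F G A hM k n x y hk hn hnk hx hy htx hty
  obtain ⟨t, ht, hi, hii, hiii⟩ := hOHT K (V ⊕ P) F (AR A) hS.calculus
    (cc1 F G k x y) (cc2 F G k n x y) hm1 hm2
  obtain ⟨⟨t1, ht1, h1⟩, ⟨ts, hts, hs⟩, hss⟩ := hOUN K (V ⊕ P) F (AR A) hS.calculus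
  -- the columns of the vanishing part
  have hcol : ∀ z (p q : V), F.M4 t z (Sum.inl p, Sum.inl q) -
      F.M4 t z (Sum.inl q, Sum.inl p) = 0 := by
    intro z p q
    rw [hi z (Sum.inl p) (Sum.inl q) (hS.o_V p) (hS.o_V q)]
    have hpar : ∀ a b, F.T (Sum.inl p) (Sum.inl q) a b ≠ 0 → F.o a = F.o b := by
      intro a b hab
      unfold OForm.T OForm.η at hab
      simp only [Matrix.of_apply, hS.st_V] at hab
      by_cases h1 : a = Sum.inl p
      · by_cases h2 : b = Sum.inl q
        · rw [h1, h2, hS.o_V, hS.o_V]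
        · by_cases h3 : a = Sum.inl q
          · by_cases h4 : b = Sum.inl p
            · rw [h1, h4]
            · exact absurd (by simp [h2, h4]) hab
          · exact absurd (by simp [h2, h3]) hab
      · by_cases h3 : a = Sum.inl q
        · by_cases h4 : b = Sum.inl p
          · rw [h3, h4, hS.o_V, hS.o_V]
          · exact absurd (by simp [h1, h4]) hab
        · exact absurd (by simp [h1, h3]) hab
    have h2 := iden hODE F G k n x y hk hnk htx (F.T (Sum.inl p) (Sum.inl q)) hpar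
      (fun w hw => hder p q k x hx w hw) z.1 z.2
    rw [sum_T1 F (Sum.inl p) (Sum.inl q) z.1 (fun b => cc1 F G k x y b z.2)] at h2
    have h3 : ∀ e, ∑ b, F.c e * F.T (Sum.inl p) (Sum.inl q) e b *
        cc2 F G k n x y z.1 b (F.st e) z.2 =
        (if e = Sum.inl p then F.c e * (F.c (Sum.inl q) *
          cc2 F G k n x y z.1 (F.st (Sum.inl q)) (F.st e) z.2) else 0) -
        (if e = Sum.inl q then F.c e * (F.c (Sum.inl p) *
          cc2 F G k n x y z.1 (F.st (Sum.inl p)) (F.st e) z.2) else 0) := by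
      intro e
      have h4 := sum_T1 F (Sum.inl p) (Sum.inl q) e
        (fun b => cc2 F G k n x y z.1 b (F.st e) z.2)
      have h5 : ∑ b, F.c e * F.T (Sum.inl p) (Sum.inl q) e b *
          cc2 F G k n x y z.1 b (F.st e) z.2 =
          F.c e * ∑ b, F.T (Sum.inl p) (Sum.inl q) e b *
            cc2 F G k n x y z.1 b (F.st e) z.2 := by
        rw [Finset.mul_sum]
        exact Finset.sum_congr rfl fun b _ => by ring
      rw [h5, h4, mul_sub]
      congr 1
      · by_cases h6 : e = Sum.inl p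
        · rw [if_pos h6, if_pos h6]
        · rw [if_neg h6, if_neg h6, mul_zero]
      · by_cases h6 : e = Sum.inl q
        · rw [if_pos h6, if_pos h6]
        · rw [if_neg h6, if_neg h6, mul_zero]
    rw [Finset.sum_congr rfl fun e _ => h3 e, Finset.sum_sub_distrib, Finset.sum_ite_eq',
      Finset.sum_ite_eq', if_pos (Finset.mem_univ _), if_pos (Finset.mem_univ _)] at h2
    refine Eq.trans ?_ h2
    ring
  -- the antisymmetrization
  have hG : ∃ t' ∈ AR A 2, F.M4 t' = (1 - F.Sx) * F.M4 t * (1 - F.Sx) := by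
    have e1 : F.M4 (t1 + (-1 : ℚ) • ts) = 1 - F.Sx := by
      rw [M4_add, M4_smul, h1, hs]
      push_cast
      rw [neg_one_smul, sub_eq_add_neg]
    have m1 : t1 + (-1 : ℚ) • ts ∈ AR A 2 := (AR A 2).add_mem ht1 ((AR A 2).smul_mem _ hts)
    obtain ⟨t2, ht2, h2⟩ := hOMU K (V ⊕ P) F (AR A) hS.calculus _ m1 t ht
    obtain ⟨t3, ht3, h3⟩ := hOMU K (V ⊕ P) F (AR A) hS.calculus t2 ht2 _ m1
    exact ⟨t3, ht3, by rw [h3, h2, e1]⟩
  obtain ⟨t', ht', hg⟩ := hG
  have q1 : (1 - F.Sx) * F.Sx = -(1 - F.Sx) := by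
    rw [sub_mul, one_mul, hss]
    abel
  have q2 : F.Sx * (1 - F.Sx) = -(1 - F.Sx) := by
    rw [mul_sub, mul_one, hss]
    abel
  have k1 : F.M4 t' * F.Sx = -F.M4 t' := by
    rw [hg, Matrix.mul_assoc, q1, Matrix.mul_neg]
  have k2 : F.Sx * F.M4 t' = -F.M4 t' := by
    rw [hg, ← Matrix.mul_assoc, ← Matrix.mul_assoc, q2, Matrix.neg_mul, Matrix.neg_mul]
  have k3 : ∀ z (p q : V), F.M4 t' z (Sum.inl p, Sum.inl q) = 0 := by
    intro z p q
    have e1 : ∀ w, (F.M4 t * (1 - F.Sx)) w (Sum.inl p, Sum.inl q) = 0 := by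
      intro w
      rw [Matrix.mul_sub, Matrix.mul_one, Matrix.sub_apply, mul_Sx, hS.o_V p, hS.o_V q,
        ks_self, sg_false, mul_one]
      exact hcol w p q
    rw [hg, Matrix.mul_assoc, Matrix.mul_apply]
    exact Finset.sum_eq_zero fun w _ => by rw [e1 w, mul_zero]
  have hkey := hOKE K V P F (AR A) hS t' ht' k1 k2 k3
  have e2 : F.str2 (F.M4 t') = 2 * F.str2 (F.M4 t) - 2 * F.str2 (F.M4 t * F.Sx) := by
    rw [hg]
    have e3 : (1 - F.Sx) * F.M4 t * (1 - F.Sx) =
        (F.M4 t - F.M4 t * F.Sx) - (F.Sx * F.M4 t - F.Sx * (F.M4 t * F.Sx)) := by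
      rw [Matrix.mul_assoc, Matrix.mul_sub, Matrix.mul_one, Matrix.sub_mul, Matrix.one_mul,
        Matrix.mul_sub]
    rw [e3, str2_sub, str2_sub, str2_sub, str2_cyc, str2_cyc F (F.M4 t * F.Sx),
      Matrix.mul_assoc, hss, Matrix.mul_one]
    ring
  rw [e2] at hkey
  have e4 : F.str2 (F.M4 t) = F.str2 (F.M4 t * F.Sx) := by
    have h6 : (2 : K) * (F.str2 (F.M4 t) - F.str2 (F.M4 t * F.Sx)) = 0 := by
      linear_combination hkey
    have h7 := (mul_eq_zero.1 h6).resolve_left two_ne_zero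
    exact sub_eq_zero.1 h7
  obtain ⟨s0, s1, s2⟩ := pairs hONN F G k n x y hk hn hnk htx hty
  rw [hii, hiii, s0, s1, s2] at e4
  rw [Finset.sum_sub_distrib]
  linear_combination e4

end Pool.Agent.H7.FTM
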