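import Pool.Agent.H7.FTM.Com

/-!
# MP_fd35e1_ag: row MRO of ftm_modules, the relation for classes of type a, odd dimension

Model: Pool/Agent/H10/NL/STR.lean.
-/

set_option autoImplicit false
set_option linter.unusedSectionVars false

open Matrix Pool.Agent.H64.CC Pool.Agent.H2.NL Pool.Agent.H2.KM Pool.Agent.H64.EV Pool.Agent.H64.FTM
open Pool.Agent.H64.EK hiding kap

namespace Pool.Agent.H7.FTM

section

variable {K : Type} [Field K] {I : Type} [Fintype I] [DecidableEq I] (F : Form K I)

omit [DecidableEq I] [Fintype I] in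
private theorem M4_add (t t' : List I → K) : M4 F (t + t') = M4 F t + M4 F t' := by
  ext x y
  simp only [M4, Matrix.of_apply, Matrix.add_apply, Pi.add_apply, add_mul]

omit [DecidableEq I] [Fintype I] in
private theorem M4_smul [CharZero K] (q : ℚ) (t : List I → K) :
    M4 F (q • t) = (q : K) • M4 F t := by
  ext x y
  simp only [M4, Matrix.of_apply, Matrix.smul_apply, Pi.smul_apply, smul_eq_mul]
  rw [Rat.smul_def, mul_assoc]

private theorem mul_Sx (G : Matrix (I × I) (I × I) K) (x : I × I) (a b : I) :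
    (G * Sx F) x (a, b) = G x (b, a) * ks K (F.o a) (F.o b) := by
  rw [Matrix.mul_apply, Finset.sum_eq_single (b, a)]
  · unfold Sx
    rw [Matrix.of_apply, if_pos ⟨rfl, rfl⟩, ks_comm]
  · intro z _ hz
    unfold Sx
    rw [Matrix.of_apply, if_neg, mul_zero]
    rintro ⟨h3, h4⟩
    exact hz (Prod.ext h3 h4)
  · intro h
    exact absurd (Finset.mem_univ _) h

private theorem Sx_mul (G : Matrix (I × I) (I × I) K) (y : I × I) (a b : I) :
    (Sx F * G) (a, b) y = G (b, a) y * ks K (F.o a) (F.o b) := by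
  rw [Matrix.mul_apply, Finset.sum_eq_single (b, a)]
  · unfold Sx
    rw [Matrix.of_apply, if_pos ⟨rfl, rfl⟩, mul_comm]
  · intro z _ hz
    unfold Sx
    rw [Matrix.of_apply, if_neg, zero_mul]
    rintro ⟨h3, h4⟩
    exact hz (Prod.ext h4.symm h3.symm)
  · intro h
    exact absurd (Finset.mem_univ _) h

omit [DecidableEq I] in
private theorem str2_add (G G' : Matrix (I × I) (I × I) K) :
    str2 F (G + G') = str2 F G + str2 F G' := by
  unfold str2
  rw [← Finset.sum_add_distrib]
  exact Finset.sum_congr rfl fun x _ => by rw [Matrix.add_apply]; ring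

omit [DecidableEq I] in
private theorem str2_sub (G G' : Matrix (I × I) (I × I) K) :
    str2 F (G - G') = str2 F G - str2 F G' := by
  unfold str2
  rw [← Finset.sum_sub_distrib]
  exact Finset.sum_congr rfl fun x _ => by rw [Matrix.sub_apply]; ring

omit [DecidableEq I] in
private theorem str2_smul (c : K) (G : Matrix (I × I) (I × I) K) :
    str2 F (c • G) = c * str2 F G := by
  unfold str2
  rw [Finset.mul_sum]
  exact Finset.sum_congr rfl fun x _ => by rw [Matrix.smul_apply, smul_eq_mul]; ring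

private theorem str2_cyc (G : Matrix (I × I) (I × I) K) :
    str2 F (Sx F * G) = str2 F (G * Sx F) := by
  unfold str2
  rw [← (Equiv.prodComm I I).sum_comp]
  refine Finset.sum_congr rfl fun x _ => ?_
  obtain ⟨a, b⟩ := x
  show sg K (F.o b) * sg K (F.o a) * (Sx F * G) (b, a) (b, a) =
    sg K (F.o a) * sg K (F.o b) * (G * Sx F) (a, b) (a, b)
  rw [Sx_mul, mul_Sx, ks_comm]
  ring

/-- the sums in the invariance -/
private theorem sum_T1 (p q a : I) (f : I → K) :
    ∑ b, F.T p q a b * f b = (if a = p then F.c q * f (F.st q) else 0) +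
      (if a = q then F.c p * f (F.st p) else 0) := by
  have h : ∀ q : I, ∑ b, F.η q b * f b = F.c q * f (F.st q) := by
    intro q
    rw [Finset.sum_eq_single (F.st q)]
    · rw [Form.η, Matrix.of_apply, if_pos rfl]
    · intro b _ hb
      rw [Form.η, Matrix.of_apply, if_neg hb, zero_mul]
    · intro h
      exact absurd (Finset.mem_univ _) h
  have h1 : ∀ b, F.T p q a b * f b = (if a = p then F.η q b * f b else 0) +
      (if a = q then F.η p b * f b else 0) := by
    intro b
    rw [Form.T, Matrix.of_apply]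
    by_cases h2 : a = p <;> by_cases h3 : a = q <;> simp [h2, h3, add_mul]
  rw [Finset.sum_congr rfl fun b _ => h1 b, Finset.sum_add_distrib]
  congr 1
  · by_cases h2 : a = p
    · simp only [if_pos h2]; exact h q
    · simp only [if_neg h2]; exact Finset.sum_const_zero
  · by_cases h2 : a = q
    · simp only [if_pos h2]; exact h p
    · simp only [if_neg h2]; exact Finset.sum_const_zero

end

theorem pf_MRO (hODE : T_ODE) (hOMV : T_OMV) (hOMC : T_OMC) (hONN : T_ONN) (hOH1 : T_OH1)
    (hKEY : T_KEY) (hMUL : T_MUL) (hUNI : T_UNI) : T_MRO := by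
  intro K _ _ V P E _ _ _ _ _ _ F G A hM hS hder k n x y hk hn hnk hx hy htx hty
  have hm1 := mem1 hOMC (toO F) G A hM k n x y hk hn hx hy htx hty
  have hm2 := mem2 hOMV hOMC (toO F) G A hM k n x y hk hn hnk hx hy htx hty
  have hω : (toO F).ω = F.ω := by
    ext a b
    show (if b = F.st a then (F.c b)⁻¹ else 0) = if b = F.st a then F.c b else 0
    by_cases h : b = F.st a
    · rw [if_pos h, if_pos h]
      rcases F.c_val b with h1 | h1
      · show (F.c b)⁻¹ = F.c b
        rw [h1, inv_one]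
      · show (F.c b)⁻¹ = F.c b
        rw [h1, inv_neg, inv_one]
    · rw [if_neg h, if_neg h]
  have hcalc : Calc (toO F).o (toO F).η (toO F).ω (AR A) := by
    rw [hω]
    exact hS.calculus
  obtain ⟨t, ht, hi, hii, hiii⟩ := hOH1 K (V ⊕ P) (toO F) (AR A) hcalc
    (cc1 (toO F) G k x y) (cc2 (toO F) G k n x y) hm1 hm2
  obtain ⟨⟨t1, ht1, h1⟩, ⟨ts, hts, hs⟩, hss⟩ := hUNI K (V ⊕ P) F (AR A) hS.calculus
  -- the columns of the vanishing part
  have hcol : ∀ z (p q : V), M4 F t z (Sum.inl p, Sum.inl q) +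
      M4 F t z (Sum.inl q, Sum.inl p) = 0 := by
    intro z p q
    refine (hi z (Sum.inl p) (Sum.inl q) (hS.o_V p) (hS.o_V q)).trans ?_
    have hpar : ∀ a b, F.T (Sum.inl p) (Sum.inl q) a b ≠ 0 → (toO F).o a = (toO F).o b := by
      intro a b hab
      show F.o a = F.o b
      obtain ⟨p', hp'⟩ := hS.st_V p
      obtain ⟨q', hq'⟩ := hS.st_V q
      unfold Form.T Form.η at hab
      simp only [Matrix.of_apply, hp', hq'] at hab
      by_cases h1 : a = Sum.inl p
      · by_cases h2 : b = Sum.inl q'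
        · rw [h1, h2, hS.o_V, hS.o_V]
        · by_cases h3 : a = Sum.inl q
          · by_cases h4 : b = Sum.inl p'
            · rw [h1, h4, hS.o_V, hS.o_V]
            · exact absurd (by simp [h2, h4]) hab
          · exact absurd (by simp [h2, h3]) hab
      · by_cases h3 : a = Sum.inl q
        · by_cases h4 : b = Sum.inl p'
          · rw [h3, h4, hS.o_V, hS.o_V]
          · exact absurd (by simp [h1, h4]) hab
        · exact absurd (by simp [h1, h3]) hab
    have h2 := iden hODE (toO F) G k n x y hk hnk htx (F.T (Sum.inl p) (Sum.inl q)) hpar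
      (fun w hw => hder p q k x hx w hw) z.1 z.2
    rw [sum_T1 F (Sum.inl p) (Sum.inl q) z.1 (fun b => cc1 (toO F) G k x y b z.2)] at h2
    have h3 : ∀ e, ∑ b, (toO F).c e * F.T (Sum.inl p) (Sum.inl q) e b *
        cc2 (toO F) G k n x y z.1 b ((toO F).st e) z.2 =
        (if e = Sum.inl p then F.c e * (F.c (Sum.inl q) *
          cc2 (toO F) G k n x y z.1 (F.st (Sum.inl q)) (F.st e) z.2) else 0) +
        (if e = Sum.inl q then F.c e * (F.c (Sum.inl p) *
          cc2 (toO F) G k n x y z.1 (F.st (Sum.inl p)) (F.st e) z.2) else 0) := by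
      intro e
      have h4 := sum_T1 F (Sum.inl p) (Sum.inl q) e
        (fun b => cc2 (toO F) G k n x y z.1 b (F.st e) z.2)
      have h5 : ∑ b, (toO F).c e * F.T (Sum.inl p) (Sum.inl q) e b *
          cc2 (toO F) G k n x y z.1 b ((toO F).st e) z.2 =
          F.c e * ∑ b, F.T (Sum.inl p) (Sum.inl q) e b *
            cc2 (toO F) G k n x y z.1 b (F.st e) z.2 := by
        rw [Finset.mul_sum]
        exact Finset.sum_congr rfl fun b _ => mul_assoc _ _ _
      rw [h5, h4, mul_add]
      congr 1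
      · by_cases h6 : e = Sum.inl p
        · rw [if_pos h6, if_pos h6]
        · rw [if_neg h6, if_neg h6, mul_zero]
      · by_cases h6 : e = Sum.inl q
        · rw [if_pos h6, if_pos h6]
        · rw [if_neg h6, if_neg h6, mul_zero]
    rw [Finset.sum_congr rfl fun e _ => h3 e, Finset.sum_add_distrib, Finset.sum_ite_eq',
      Finset.sum_ite_eq', if_pos (Finset.mem_univ _), if_pos (Finset.mem_univ _)] at h2
    refine Eq.trans ?_ h2
    show (if z.1 = Sum.inl p then F.c (Sum.inl q) * cc1 (toO F) G k x y (F.st (Sum.inl q)) z.2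
        else 0) +
      (if z.1 = Sum.inl q then F.c (Sum.inl p) * cc1 (toO F) G k x y (F.st (Sum.inl p)) z.2
        else 0) +
      F.c (Sum.inl p) * F.c (Sum.inl q) *
        (cc2 (toO F) G k n x y z.1 (F.st (Sum.inl q)) (F.st (Sum.inl p)) z.2 +
          cc2 (toO F) G k n x y z.1 (F.st (Sum.inl p)) (F.st (Sum.inl q)) z.2) = _
    ring
  -- the antisymmetrization
  have hG : ∃ t' ∈ AR A 2, M4 F t' =
      ((1 / 4 : ℚ) : K) • ((1 - Sx F) * M4 F t * (1 - Sx F)) := by
    have e1 : M4 F (t1 + (-1 : ℚ) • ts) = 1 - Sx F := by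
      rw [M4_add, M4_smul, h1, hs]
      push_cast
      rw [neg_one_smul, sub_eq_add_neg]
    have m1 : t1 + (-1 : ℚ) • ts ∈ AR A 2 := (AR A 2).add_mem ht1 ((AR A 2).smul_mem _ hts)
    obtain ⟨t2, ht2, h2⟩ := hMUL K (V ⊕ P) F (AR A) hS.calculus _ m1 t ht
    obtain ⟨t3, ht3, h3⟩ := hMUL K (V ⊕ P) F (AR A) hS.calculus t2 ht2 _ m1
    refine ⟨(1 / 4 : ℚ) • t3, (AR A 2).smul_mem _ ht3, ?_⟩
    rw [M4_smul, h3, h2, e1]
  obtain ⟨t', ht', hg⟩ := hG
  have q1 : (1 - Sx F) * Sx F = -(1 - Sx F) := by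
    rw [sub_mul, one_mul, hss]
    abel
  have q2 : Sx F * (1 - Sx F) = -(1 - Sx F) := by
    rw [mul_sub, mul_one, hss]
    abel
  have k1 : M4 F t' * Sx F = -M4 F t' := by
    rw [hg, Matrix.smul_mul, Matrix.mul_assoc, q1, Matrix.mul_neg, smul_neg]
  have k2 : Sx F * M4 F t' = -M4 F t' := by
    rw [hg, Matrix.mul_smul, ← Matrix.mul_assoc, ← Matrix.mul_assoc, q2, Matrix.neg_mul,
      Matrix.neg_mul, smul_neg]
  have k3 : ∀ z (p q : V), M4 F t' z (Sum.inl p, Sum.inl q) = 0 := by
    intro z p q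
    have e1 : ∀ w, (M4 F t * (1 - Sx F)) w (Sum.inl p, Sum.inl q) = 0 := by
      intro w
      rw [Matrix.mul_sub, Matrix.mul_one, Matrix.sub_apply, mul_Sx, hS.o_V p, hS.o_V q,
        ks_self, sg_true]
      have := hcol w p q
      linear_combination this
    rw [hg, Matrix.smul_apply, Matrix.mul_assoc, Matrix.mul_apply]
    rw [Finset.sum_eq_zero fun w _ => by rw [e1 w, mul_zero], smul_zero]
  have hkey := hKEY K V P F (AR A) hS t' ht' k1 k2 k3
  have e2 : str2 F (M4 F t') = ((1 / 4 : ℚ) : K) *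
      (2 * str2 F (M4 F t) - 2 * str2 F (M4 F t * Sx F)) := by
    rw [hg, str2_smul]
    have e3 : (1 - Sx F) * M4 F t * (1 - Sx F) =
        (M4 F t - M4 F t * Sx F) - (Sx F * M4 F t - Sx F * (M4 F t * Sx F)) := by
      rw [Matrix.mul_assoc, Matrix.mul_sub, Matrix.mul_one, Matrix.sub_mul, Matrix.one_mul,
        Matrix.mul_sub]
    rw [e3, str2_sub, str2_sub, str2_sub, str2_cyc, str2_cyc F (M4 F t * Sx F),
      Matrix.mul_assoc, hss, Matrix.mul_one]
    ring
  rw [e2] at hkey
  have e4 : str2 F (M4 F t) = str2 F (M4 F t * Sx F) := by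
    have h4 : ((1 / 4 : ℚ) : K) ≠ 0 := by
      rw [Ne, Rat.cast_eq_zero]
      norm_num
    have h5 := (mul_eq_zero.1 hkey).resolve_left h4
    have h6 : (2 : K) * (str2 F (M4 F t) - str2 F (M4 F t * Sx F)) = 0 := by
      linear_combination h5
    have h7 := (mul_eq_zero.1 h6).resolve_left two_ne_zero
    exact sub_eq_zero.1 h7
  obtain ⟨s0, s1, s2⟩ := pairs hONN (toO F) G k n x y hk hn hnk htx hty
  have e5 : (toO F).str2 ((toO F).M4 t) = (toO F).str2 ((toO F).M4 t * (toO F).Sx) := e4
  rw [hii, hiii, s0, s1, s2] at e5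
  rw [Finset.sum_sub_distrib]
  linear_combination e5

end Pool.Agent.H7.FTM
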