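import Pool.Agent.H64.FTM.Targets

/-!
# MP_fd35e1_ag: rows MRE and MRO of ftm_modules, the common part
-/

set_option autoImplicit false
set_option linter.unusedSectionVars false

open Matrix Pool.Agent.H64.CC Pool.Agent.H2.NL Pool.Agent.H2.KM Pool.Agent.H64.EV Pool.Agent.H64.FTM
open Pool.Agent.H64.EK hiding kap

namespace Pool.Agent.H7.FTM

section form

variable {K : Type} [Field K] {I : Type} [Fintype I] [DecidableEq I] (F : OForm K I)

private theorem Pr_congr : ∀ (n : ℕ) (f f' g g' : List I → K),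
    (∀ l : List I, l.length = n → f l = f' l) → (∀ l : List I, l.length = n → g l = g' l) →
    F.Pr n f g = F.Pr n f' g' := by
  intro n
  induction n with
  | zero =>
    intro f f' g g' h h'
    show f [] * g [] = f' [] * g' []
    rw [h [] rfl, h' [] rfl]
  | succ n ih =>
    intro f f' g g' h h'
    show ∑ a, F.c a * F.Pr n (fun l => f (a :: l)) (fun l => g (F.st a :: l)) =
      ∑ a, F.c a * F.Pr n (fun l => f' (a :: l)) (fun l => g' (F.st a :: l))
    refine Finset.sum_congr rfl fun a _ => ?_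
    rw [ih _ (fun l => f' (a :: l)) _ (fun l => g' (F.st a :: l)) (fun l hl => h (a :: l)
      (by simp [hl])) fun l hl => h' (F.st a :: l) (by simp [hl])]

private theorem Pr_add : ∀ (n : ℕ) (f f' g : List I → K),
    F.Pr n (fun l => f l + f' l) g = F.Pr n f g + F.Pr n f' g := by
  intro n
  induction n with
  | zero =>
    intro f f' g
    show (f [] + f' []) * g [] = f [] * g [] + f' [] * g []
    ring
  | succ n ih =>
    intro f f' g
    show ∑ a, F.c a * F.Pr n (fun l => f (a :: l) + f' (a :: l)) (fun l => g (F.st a :: l)) =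
      ∑ a, F.c a * F.Pr n (fun l => f (a :: l)) (fun l => g (F.st a :: l)) +
      ∑ a, F.c a * F.Pr n (fun l => f' (a :: l)) (fun l => g (F.st a :: l))
    rw [← Finset.sum_add_distrib]
    refine Finset.sum_congr rfl fun a _ => ?_
    rw [ih (fun l => f (a :: l)) (fun l => f' (a :: l))]
    ring

private theorem Pr_zero : ∀ (n : ℕ) (g : List I → K), F.Pr n (fun _ => 0) g = 0 := by
  intro n
  induction n with
  | zero =>
    intro g
    show 0 * g [] = 0
    ring
  | succ n ih =>
    intro g
    show ∑ a, F.c a * F.Pr n (fun _ => 0) (fun l => g (F.st a :: l)) = 0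
    refine Finset.sum_eq_zero fun a _ => ?_
    rw [ih, mul_zero]

private theorem Pr_zero' : ∀ (n : ℕ) (g : List I → K), F.Pr n g (fun _ => 0) = 0 := by
  intro n
  induction n with
  | zero =>
    intro g
    show g [] * 0 = 0
    ring
  | succ n ih =>
    intro g
    show ∑ a, F.c a * F.Pr n (fun l => g (a :: l)) (fun _ => 0) = 0
    refine Finset.sum_eq_zero fun a _ => ?_
    rw [ih, mul_zero]

private theorem Pr_smul (s : K) : ∀ (n : ℕ) (f g : List I → K),
    F.Pr n (fun l => s * f l) g = s * F.Pr n f g := by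
  intro n
  induction n with
  | zero =>
    intro f g
    show s * f [] * g [] = s * (f [] * g [])
    ring
  | succ n ih =>
    intro f g
    show ∑ a, F.c a * F.Pr n (fun l => s * f (a :: l)) (fun l => g (F.st a :: l)) =
      s * ∑ a, F.c a * F.Pr n (fun l => f (a :: l)) (fun l => g (F.st a :: l))
    rw [Finset.mul_sum]
    refine Finset.sum_congr rfl fun a _ => ?_
    rw [ih (fun l => f (a :: l))]
    ring

private theorem Pr_sum {J : Type} (S : Finset J) (s : J → K) (n : ℕ) (f : J → List I → K)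
    (g : List I → K) :
    F.Pr n (fun l => ∑ b ∈ S, s b * f b l) g = ∑ b ∈ S, s b * F.Pr n (f b) g := by
  classical
  induction S using Finset.induction_on with
  | empty =>
    simp only [Finset.sum_empty]
    exact Pr_zero F n g
  | insert b S hb ih =>
    simp only [Finset.sum_insert hb]
    rw [Pr_add F n (fun l => s b * f b l) (fun l => ∑ b ∈ S, s b * f b l), Pr_smul, ih]

/-- the contraction vanishes if one of the tensors vanishes -/
private theorem C2_zero (n : ℕ) (x y : List I → K) (a b e d : I)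
    (h : (∀ l : List I, l.length = n - 2 → x (a :: b :: l) = 0) ∨
      ∀ l : List I, l.length = n - 2 → y (d :: e :: l) = 0) : F.C2 n x y a b e d = 0 := by
  unfold OForm.C2
  rcases h with h | h
  · rw [Pr_congr F (n - 2) _ (fun _ => 0) _ _ h fun _ _ => rfl, Pr_zero]
  · rw [Pr_congr F (n - 2) _ _ _ (fun _ => 0) (fun _ _ => rfl) h, Pr_zero']

private theorem C1_zero (n : ℕ) (x y : List I → K) (a d : I)
    (h : (∀ l : List I, l.length = n - 1 → x (a :: l) = 0) ∨
      ∀ l : List I, l.length = n - 1 → y (d :: l) = 0) : F.C1 n x y a d = 0 := by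
  unfold OForm.C1
  rcases h with h | h
  · rw [Pr_congr F (n - 1) _ (fun _ => 0) _ _ h fun _ _ => rfl, Pr_zero]
  · rw [Pr_congr F (n - 1) _ _ _ (fun _ => 0) (fun _ _ => rfl) h, Pr_zero']

end form

section mv

variable {K : Type} [Field K] {I : Type} [Fintype I]

private theorem sws_succ (o : I → Bool) (t : List I → K) (a : I) :
    ∀ (js : List ℕ) (w : List I),
      sws o (js.map (· + 1)) t (a :: w) = sws o js (fun l => t (a :: l)) w := by
  intro js
  induction js with
  | nil => intro w; rfl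
  | cons j js ih =>
    intro w
    show sw o j (fun l' => sws o (js.map (· + 1)) t (a :: l')) w =
      sw o j (sws o js (fun l => t (a :: l))) w
    rw [funext ih]

private theorem mv_eq (o : I → Bool) (i : ℕ) (t : List I → K) (a : I)
    (w : List I) : mv o (i + 1) t (a :: w) = sws o (List.range i) (fun l => t (a :: l)) w := by
  unfold mv
  have h : List.range' 1 (i + 1 - 1) = (List.range i).map (· + 1) := by
    have h1 : (fun j : ℕ => j + 1) = fun j => 1 + j := funext fun j => Nat.add_comm j 1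
    rw [Nat.add_sub_cancel, List.range_eq_range', h1, List.map_add_range']
  rw [h, sws_succ]

private theorem sws_range (o : I → Bool) (b : I) : ∀ (i : ℕ) (t : List I → K) (l : List I),
    i ≤ l.length → ∃ κ : K, sws o (List.range i) t (b :: l) =
      κ * t (l.take i ++ b :: l.drop i) := by
  intro i
  induction i with
  | zero =>
    intro t l _
    exact ⟨1, by simp [sws]⟩
  | succ i ih =>
    intro t l hl
    obtain ⟨κ, hκ⟩ := ih (sw o i t) l (by omega)
    have h1 : sws o (List.range (i + 1)) t = sws o (List.range i) (sw o i t) := by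
      unfold sws
      rw [List.range_succ, List.foldr_append]
      rfl
    have h2 : l.drop i = l[i] :: l.drop (i + 1) := List.drop_eq_getElem_cons (by omega)
    have h3 := sw_append o (l.take i) t b l[i] (l.drop (i + 1))
    have h4 : (l.take i).length = i := by
      rw [List.length_take]
      omega
    rw [h4] at h3
    refine ⟨κ * ks K (o b) (o l[i]), ?_⟩
    rw [h1, hκ, h2, h3, mul_assoc]
    congr 3
    rw [← List.take_append_getElem (show i < l.length by omega), List.append_assoc]
    rfl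

private theorem mv_ne (o : I → Bool) (x : List I → K) (z b : I) (l : List I) (i : ℕ)
    (hi : i ≤ l.length) (h : mv o (i + 1) x (z :: b :: l) ≠ 0) :
    x (z :: (l.take i ++ b :: l.drop i)) ≠ 0 := by
  intro h0
  apply h
  rw [mv_eq]
  obtain ⟨κ, hκ⟩ := sws_range o b i (fun l => x (z :: l)) l hi
  rw [hκ, h0, mul_zero]

end mv

section types

variable {K : Type} [Field K] {J E : Type} [Fintype J] [Fintype E]

private theorem ty_first {n a : ℕ} {x : List (J ⊕ E) → K} (hx : Ty n a x) (ha : 1 ≤ a)
    {z : J ⊕ E} {l : List (J ⊕ E)} (hl : l.length + 1 = n) (h : x (z :: l) ≠ 0) :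
    z.isLeft = true := by
  obtain ⟨u, v, hu, hw⟩ := hx (z :: l) (by simpa using hl) h
  match u, hu with
  | [], hu => simp at hu; omega
  | u0 :: u, _ =>
    simp only [List.map_cons, List.cons_append, List.cons.injEq] at hw
    rw [hw.1]
    rfl

private theorem ty_mv {n a : ℕ} {x : List (J ⊕ E) → K} (hx : Ty n a x) (o : J ⊕ E → Bool)
    {z b : J ⊕ E} {l : List (J ⊕ E)} {i : ℕ} (hi : i ≤ l.length) (hl : l.length + 2 = n)
    (h : mv o (i + 1) x (z :: b :: l) ≠ 0) : b.isLeft = decide (i + 1 < a) := by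
  have h1 := mv_ne o x z b l i hi h
  have h4 : (l.take i).length = i := by
    rw [List.length_take]
    omega
  obtain ⟨u, v, hu, hw⟩ := hx _ (by
    simp only [List.length_cons, List.length_append, List.length_drop, h4]
    omega) h1
  have h2 : (z :: (l.take i ++ b :: l.drop i))[i + 1]? = some b := by
    rw [List.getElem?_cons_succ, List.getElem?_append_right (by omega), h4, Nat.sub_self]
    rfl
  rw [hw] at h2
  by_cases hia : i + 1 < a
  · rw [List.getElem?_append_left (by rw [List.length_map, hu]; exact hia),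
      List.getElem?_map] at h2
    rw [decide_eq_true hia]
    obtain ⟨c, _, hc⟩ := Option.map_eq_some_iff.1 h2
    rw [← hc]
    rfl
  · rw [List.getElem?_append_right (by rw [List.length_map, hu]; omega),
      List.getElem?_map] at h2
    rw [decide_eq_false hia]
    obtain ⟨c, _, hc⟩ := Option.map_eq_some_iff.1 h2
    rw [← hc]
    rfl

private theorem ty_mv_first {n a : ℕ} {x : List (J ⊕ E) → K} (hx : Ty n a x) (ha : 1 ≤ a)
    (o : J ⊕ E → Bool)
    {z b : J ⊕ E} {l : List (J ⊕ E)} {i : ℕ} (hi : i ≤ l.length) (hl : l.length + 2 = n)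
    (h : mv o (i + 1) x (z :: b :: l) ≠ 0) : z.isLeft = true := by
  have h1 := mv_ne o x z b l i hi h
  have h4 : (l.take i).length = i := by
    rw [List.length_take]
    omega
  refine ty_first hx ha ?_ h1
  simp only [List.length_cons, List.length_append, List.length_drop, h4]
  omega

end types

/-- sums over the two kinds of letters -/
private theorem sum_inl {K : Type} [Field K] {J E : Type} [Fintype J] [Fintype E]
    (f : J ⊕ E → K) (h : ∀ b, f (Sum.inr b) = 0) : ∑ a, f a = ∑ a, f (Sum.inl a) := by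
  rw [Fintype.sum_sum_type, Finset.sum_eq_zero (s := Finset.univ) fun b _ => h b, add_zero]

section identity

variable {K : Type} [Field K] {I : Type} [Fintype I] [DecidableEq I] (F : OForm K I)

/-- the invariance, contracted with a tensor -/
private theorem gODI (hODE : T_ODE) (T : Matrix I I K) (hpar : ∀ a b, T a b ≠ 0 → F.o a = F.o b)
    (k : ℕ) (x y : List I → K) (hk : 1 ≤ k) (hd : ∀ w, w.length = 2 * k → der T x w = 0)
    (a d : I) :
    ∑ b, T a b * F.C1 (2 * k) x y b d + ∑ i ∈ Finset.range (2 * k - 1), ∑ e, ∑ b,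
      F.c e * T e b * F.C2 (2 * k) (mv F.o (i + 1) x) (mv F.o (i + 1) y) a b (F.st e) d = 0 := by
  obtain ⟨m, rfl⟩ : ∃ m, k = m + 1 := ⟨k - 1, by omega⟩
  have h1 := hODE K I F T hpar (2 * m + 1) (fun l => x (a :: l)) (fun l => y (d :: l))
  have h2 : F.Pr (2 * m + 1) (fun l => ∑ b, T a b * x (b :: l) +
      der T (fun l' => x (a :: l')) l) (fun l' => y (d :: l')) = 0 := by
    rw [Pr_congr F (2 * m + 1) _ (fun _ => 0) _ _ ?_ fun _ _ => rfl, Pr_zero]
    intro l hl
    exact hd (a :: l) (by simp [hl]; omega)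
  rw [Pr_add F (2 * m + 1) (fun l => ∑ b, T a b * x (b :: l))
    (fun l => der T (fun l' => x (a :: l')) l),
    Pr_sum F Finset.univ (fun b => T a b) (2 * m + 1) (fun b l => x (b :: l))] at h2
  have h3 : F.Pr (2 * m + 1) (fun l => der T (fun l' => x (a :: l')) l) (fun l' => y (d :: l')) =
      ∑ i ∈ Finset.range (2 * m + 1), ∑ e, ∑ b, F.c e * T e b *
        F.Pr (2 * m) (fun l => sws F.o (List.range i) (fun l => x (a :: l)) (b :: l))
          (fun l => sws F.o (List.range i) (fun l => y (d :: l)) (F.st e :: l)) := h1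
  rw [h3] at h2
  have e0 : 2 * (m + 1) - 1 = 2 * m + 1 := by omega
  have e1 : ∀ b, F.C1 (2 * (m + 1)) x y b d =
      F.Pr (2 * m + 1) (fun l => x (b :: l)) (fun l' => y (d :: l')) := by
    intro b
    unfold OForm.C1
    rw [e0]
  have e2 : ∀ (i : ℕ) (b e : I),
      F.C2 (2 * (m + 1)) (mv F.o (i + 1) x) (mv F.o (i + 1) y) a b (F.st e) d =
      F.Pr (2 * m) (fun l => sws F.o (List.range i) (fun l => x (a :: l)) (b :: l))
          (fun l => sws F.o (List.range i) (fun l => y (d :: l)) (F.st e :: l)) := by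
    intro i b e
    unfold OForm.C2
    rw [show 2 * (m + 1) - 2 = 2 * m by omega]
    simp only [mv_eq]
  simp only [e0, e1, e2]
  exact h2

end identity

section com

variable {K : Type} [Field K] [CharZero K] {J E : Type} [Fintype J] [DecidableEq J] [Fintype E]
  [DecidableEq E]

/-- the first tensor -/
def cc1 (F : OForm K J) (G : OForm K E) (k : ℕ) (x y : List (J ⊕ E) → K) (a d : J) : K :=
  (osum F G).C1 (2 * k) x y (Sum.inl a) (Sum.inl d)

/-- the second tensor -/
def cc2 (F : OForm K J) (G : OForm K E) (k n : ℕ) (x y : List (J ⊕ E) → K) (a b e d : J) : K :=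
  ∑ i ∈ Finset.range (n - 1), (osum F G).C2 (2 * k) (mv (osum F G).o (i + 1) x)
    (mv (osum F G).o (i + 1) y) (Sum.inl a) (Sum.inl b) (Sum.inl e) (Sum.inl d)

private theorem C1z (F : OForm K J) (G : OForm K E) (k n : ℕ) (x y : List (J ⊕ E) → K)
    (hk : 1 ≤ k) (hn : 1 ≤ n) (htx : Ty (2 * k) n x) (hty : Ty (2 * k) n y) (z z' : J ⊕ E)
    (h : ¬ (z.isLeft = true ∧ z'.isLeft = true)) : (osum F G).C1 (2 * k) x y z z' = 0 := by
  apply C1_zero
  by_contra hc
  push Not at hc
  obtain ⟨⟨l, hl, h1⟩, l', hl', h2⟩ := hc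
  exact h ⟨ty_first htx hn (by omega) h1, ty_first hty hn (by omega) h2⟩

private theorem C2z (F : OForm K J) (G : OForm K E) (k n : ℕ) (x y : List (J ⊕ E) → K)
    (hk : 1 ≤ k) (hn : 1 ≤ n) (hnk : n ≤ 2 * k) (htx : Ty (2 * k) n x) (hty : Ty (2 * k) n y)
    (i : ℕ) (hi : i ∈ Finset.range (n - 1)) (z1 z2 z3 z4 : J ⊕ E)
    (h : ¬ (z1.isLeft = true ∧ z2.isLeft = true ∧ z3.isLeft = true ∧ z4.isLeft = true)) :
    (osum F G).C2 (2 * k) (mv (osum F G).o (i + 1) x) (mv (osum F G).o (i + 1) y)
      z1 z2 z3 z4 = 0 := by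
  rw [Finset.mem_range] at hi
  apply C2_zero
  by_contra hc
  push Not at hc
  obtain ⟨⟨l, hl, h1⟩, l', hl', h2⟩ := hc
  have e1 := ty_mv_first htx hn _ (i := i) (by omega) (by omega) h1
  have e2 := ty_mv htx _ (i := i) (by omega) (by omega) h1
  have e3 := ty_mv_first hty hn _ (i := i) (by omega) (by omega) h2
  have e4 := ty_mv hty _ (i := i) (by omega) (by omega) h2
  rw [decide_eq_true (by omega)] at e2 e4
  exact h ⟨e1, e2, e4, e3⟩

private theorem C2z' (F : OForm K J) (G : OForm K E) (k n : ℕ) (x y : List (J ⊕ E) → K)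
    (htx : Ty (2 * k) n x) (i : ℕ) (hi : i ∈ Finset.range (2 * k - 1))
    (hi' : i ∉ Finset.range (n - 1)) (z1 : J ⊕ E) (b : J) (z3 z4 : J ⊕ E) :
    (osum F G).C2 (2 * k) (mv (osum F G).o (i + 1) x) (mv (osum F G).o (i + 1) y)
      z1 (Sum.inl b) z3 z4 = 0 := by
  rw [Finset.mem_range] at hi hi'
  apply C2_zero
  left
  intro l hl
  by_contra h1
  have e2 := ty_mv htx _ (i := i) (by omega) (by omega) h1
  rw [decide_eq_false (by omega)] at e2
  exact absurd e2 (by simp)

/-- the first tensor is a class -/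
theorem mem1 (hOMC : T_OMC) (F : OForm K J) (G : OForm K E)
    (A : ℕ → Submodule ℚ (List (J ⊕ E) → K)) (hM : MCal F G A) (k n : ℕ)
    (x y : List (J ⊕ E) → K) (hk : 1 ≤ k) (hn : 1 ≤ n) (hx : x ∈ A k)
    (hy : rv y ∈ A k) (htx : Ty (2 * k) n x) (hty : Ty (2 * k) n y) :
    two (Matrix.of (cc1 F G k x y)) ∈ AR A 1 := by
  have h := (hOMC K (J ⊕ E) (osum F G) A hM.calculus k x y hk hx hy).1
  show ext E (two (Matrix.of (cc1 F G k x y))) ∈ A 1
  refine hM.calculus.congr 1 _ _ h fun w hw => ?_
  match w, hw with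
  | [z1, z2], _ =>
    show ext E (two (Matrix.of (cc1 F G k x y))) [z1, z2] = (osum F G).C1 (2 * k) x y z1 z2
    rcases z1 with z1 | z1 <;> rcases z2 with z2 | z2
    · rfl
    · rw [C1z F G k n x y hk hn htx hty _ _ (by simp)]
      rfl
    · rw [C1z F G k n x y hk hn htx hty _ _ (by simp)]
      rfl
    · rw [C1z F G k n x y hk hn htx hty _ _ (by simp)]
      rfl

/-- the second tensor is a class -/
theorem mem2 (hOMV : T_OMV) (hOMC : T_OMC) (F : OForm K J) (G : OForm K E)
    (A : ℕ → Submodule ℚ (List (J ⊕ E) → K)) (hM : MCal F G A) (k n : ℕ)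
    (x y : List (J ⊕ E) → K) (hk : 1 ≤ k) (hn : 1 ≤ n) (hnk : n ≤ 2 * k) (hx : x ∈ A k)
    (hy : rv y ∈ A k) (htx : Ty (2 * k) n x) (hty : Ty (2 * k) n y) :
    four (cc2 F G k n x y) ∈ AR A 2 := by
  have h : ∑ i ∈ Finset.range (n - 1), four ((osum F G).C2 (2 * k) (mv (osum F G).o (i + 1) x)
      (mv (osum F G).o (i + 1) y)) ∈ A 2 := by
    refine (A 2).sum_mem fun i hi => ?_
    rw [Finset.mem_range] at hi
    obtain ⟨h1, h2, -⟩ := hOMV K (J ⊕ E) (osum F G) A hM.calculus k (i + 1) x y (by omega)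
    exact (hOMC K (J ⊕ E) (osum F G) A hM.calculus k _ _ hk (h1 hx) (h2 hy)).2
  show ext E (four (cc2 F G k n x y)) ∈ A 2
  refine hM.calculus.congr 2 _ _ h fun w hw => ?_
  match w, hw with
  | [z1, z2, z3, z4], _ =>
    rw [Finset.sum_apply]
    show ext E (four (cc2 F G k n x y)) [z1, z2, z3, z4] =
      ∑ i ∈ Finset.range (n - 1), (osum F G).C2 (2 * k) (mv (osum F G).o (i + 1) x)
      (mv (osum F G).o (i + 1) y) z1 z2 z3 z4
    by_cases h0 : z1.isLeft = true ∧ z2.isLeft = true ∧ z3.isLeft = true ∧ z4.isLeft = true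
    · obtain ⟨h1, h2, h3, h4⟩ := h0
      rcases z1 with z1 | z1
      · rcases z2 with z2 | z2
        · rcases z3 with z3 | z3
          · rcases z4 with z4 | z4
            · rfl
            · simp at h4
          · simp at h3
        · simp at h2
      · simp at h1
    · rw [Finset.sum_eq_zero fun i hi => C2z F G k n x y hk hn hnk htx hty i hi _ _ _ _ h0]
      unfold Pool.Agent.H64.FTM.ext
      rw [if_neg]
      intro h1
      apply h0
      simpa using h1

/-- the invariance -/
theorem iden (hODE : T_ODE) (F : OForm K J) (G : OForm K E)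
    (k n : ℕ) (x y : List (J ⊕ E) → K) (hk : 1 ≤ k) (hnk : n ≤ 2 * k)
    (htx : Ty (2 * k) n x) (T : Matrix J J K)
    (hpar : ∀ a b, T a b ≠ 0 → F.o a = F.o b)
    (hd : ∀ w, w.length = 2 * k → der (Matrix.fromBlocks T 0 0 (0 : Matrix E E K)) x w = 0)
    (a d : J) :
    ∑ b, T a b * cc1 F G k x y b d +
      ∑ e, ∑ b, F.c e * T e b * cc2 F G k n x y a b (F.st e) d = 0 := by
  have hpar' : ∀ a b, (Matrix.fromBlocks T 0 0 (0 : Matrix E E K)) a b ≠ 0 →
      (osum F G).o a = (osum F G).o b := by
    intro a b hab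
    rcases a with a | a <;> rcases b with b | b
    · exact hpar a b hab
    · exact absurd rfl hab
    · exact absurd rfl hab
    · exact absurd rfl hab
  have h := gODI (osum F G) hODE (Matrix.fromBlocks T 0 0 (0 : Matrix E E K)) hpar' k x y hk hd
    (Sum.inl a) (Sum.inl d)
  rw [sum_inl _ fun b => by
    rw [Matrix.fromBlocks_apply₁₂, Matrix.zero_apply, zero_mul]] at h
  have h2 : ∀ i, ∑ e, ∑ b, (osum F G).c e * (Matrix.fromBlocks T 0 0 (0 : Matrix E E K)) e b *
      (osum F G).C2 (2 * k) (mv (osum F G).o (i + 1) x) (mv (osum F G).o (i + 1) y)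
        (Sum.inl a) b ((osum F G).st e) (Sum.inl d) =
      ∑ e, ∑ b, F.c e * T e b * (osum F G).C2 (2 * k) (mv (osum F G).o (i + 1) x)
        (mv (osum F G).o (i + 1) y) (Sum.inl a) (Sum.inl b) (Sum.inl (F.st e)) (Sum.inl d) := by
    intro i
    rw [sum_inl _ fun e => ?_]
    · refine Finset.sum_congr rfl fun e _ => ?_
      rw [sum_inl _ fun b => by
        rw [Matrix.fromBlocks_apply₁₂, Matrix.zero_apply, mul_zero, zero_mul]]
      rfl
    · refine Finset.sum_eq_zero fun b _ => ?_
      rcases b with b | b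
      · rw [Matrix.fromBlocks_apply₂₁, Matrix.zero_apply, mul_zero, zero_mul]
      · rw [Matrix.fromBlocks_apply₂₂, Matrix.zero_apply, mul_zero, zero_mul]
  rw [Finset.sum_congr rfl fun i _ => h2 i] at h
  have h3 : ∑ i ∈ Finset.range (2 * k - 1), ∑ e, ∑ b, F.c e * T e b *
        (osum F G).C2 (2 * k) (mv (osum F G).o (i + 1) x)
        (mv (osum F G).o (i + 1) y) (Sum.inl a) (Sum.inl b) (Sum.inl (F.st e)) (Sum.inl d) =
      ∑ e, ∑ b, F.c e * T e b * cc2 F G k n x y a b (F.st e) d := by
    rw [← Finset.sum_subset (s₁ := Finset.range (n - 1))]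
    · unfold cc2
      simp only [Finset.mul_sum]
      rw [Finset.sum_comm]
      refine Finset.sum_congr rfl fun e _ => ?_
      rw [Finset.sum_comm]
    · intro i hi
      rw [Finset.mem_range] at hi ⊢
      omega
    · intro i hi hi'
      refine Finset.sum_eq_zero fun e _ => Finset.sum_eq_zero fun b _ => ?_
      rw [C2z' F G k n x y htx i hi hi', mul_zero]
  rw [h3] at h
  exact h

/-- the pairings -/
theorem pairs (hONN : T_ONN) (F : OForm K J) (G : OForm K E)
    (k n : ℕ) (x y : List (J ⊕ E) → K) (hk : 1 ≤ k) (hn : 1 ≤ n) (hnk : n ≤ 2 * k)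
    (htx : Ty (2 * k) n x) (hty : Ty (2 * k) n y) :
    ∑ a, F.c a * cc1 F G k x y a (F.st a) = (osum F G).Pr (2 * k) x y ∧
    ∑ a, ∑ b, ks K (F.o a) (F.o b) * F.c a * F.c b *
      cc2 F G k n x y a b (F.st a) (F.st b) = ∑ i ∈ Finset.range (n - 1),
        (osum F G).Pr (2 * k) (sw (osum F G).o 0 (mv (osum F G).o (i + 1) x))
          (mv (osum F G).o (i + 1) y) ∧
    ∑ a, ∑ d, F.c a * F.c (F.st d) * cc2 F G k n x y a (F.st a) (F.st d) d =
      ∑ i ∈ Finset.range (n - 1),
        (osum F G).Pr (2 * k - 2) (con (osum F G).η 0 (mv (osum F G).o (i + 1) x))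
          ((osum F G).con' (mv (osum F G).o (i + 1) y)) := by
  refine ⟨?_, ?_, ?_⟩
  · rw [← (hONN K (J ⊕ E) (osum F G) (2 * k) x y (by omega)).1, sum_inl]
    · rfl
    · intro b
      rw [C1z F G k n x y hk hn htx hty _ _ (by simp), mul_zero]
  · have h2 : ∀ i ∈ Finset.range (n - 1),
        (osum F G).Pr (2 * k) (sw (osum F G).o 0 (mv (osum F G).o (i + 1) x))
          (mv (osum F G).o (i + 1) y) =
        ∑ a, ∑ b, ks K (F.o a) (F.o b) * F.c a * F.c b *
          (osum F G).C2 (2 * k) (mv (osum F G).o (i + 1) x) (mv (osum F G).o (i + 1) y)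
            (Sum.inl a) (Sum.inl b) (Sum.inl (F.st a)) (Sum.inl (F.st b)) := by
      intro i hi
      rw [← (hONN K (J ⊕ E) (osum F G) (2 * k) _ _ (by omega)).2.1, sum_inl]
      · refine Finset.sum_congr rfl fun a _ => ?_
        rw [sum_inl]
        · rfl
        · intro b
          rw [C2z F G k n x y hk hn hnk htx hty i hi _ _ _ _ (by simp), mul_zero]
      · intro a
        refine Finset.sum_eq_zero fun b _ => ?_
        rw [C2z F G k n x y hk hn hnk htx hty i hi _ _ _ _ (by simp), mul_zero]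
    rw [Finset.sum_congr rfl h2]
    unfold cc2
    simp only [Finset.mul_sum]
    rw [Finset.sum_comm (s := Finset.range (n - 1))]
    refine Finset.sum_congr rfl fun a _ => ?_
    rw [Finset.sum_comm]
  · have h2 : ∀ i ∈ Finset.range (n - 1),
        (osum F G).Pr (2 * k - 2) (con (osum F G).η 0 (mv (osum F G).o (i + 1) x))
          ((osum F G).con' (mv (osum F G).o (i + 1) y)) =
        ∑ a, ∑ d, F.c a * F.c (F.st d) *
          (osum F G).C2 (2 * k) (mv (osum F G).o (i + 1) x) (mv (osum F G).o (i + 1) y)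
            (Sum.inl a) (Sum.inl (F.st a)) (Sum.inl (F.st d)) (Sum.inl d) := by
      intro i hi
      rw [← (hONN K (J ⊕ E) (osum F G) (2 * k) _ _ (by omega)).2.2, sum_inl]
      · refine Finset.sum_congr rfl fun a _ => ?_
        rw [sum_inl]
        · rfl
        · intro b
          rw [C2z F G k n x y hk hn hnk htx hty i hi _ _ _ _ (by simp), mul_zero]
      · intro a
        refine Finset.sum_eq_zero fun b _ => ?_
        rw [C2z F G k n x y hk hn hnk htx hty i hi _ _ _ _ (by simp), mul_zero]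
    rw [Finset.sum_congr rfl h2]
    unfold cc2
    simp only [Finset.mul_sum]
    rw [Finset.sum_comm (s := Finset.range (n - 1))]
    refine Finset.sum_congr rfl fun a _ => ?_
    rw [Finset.sum_comm]

end com

end Pool.Agent.H7.FTM
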